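import Pool.Agent.MWGX.StmtsA

/-!
# MWGX, row CRX: `Dm d` changes the label of `a` by `d`
-/

set_option autoImplicit false

namespace Pool.Agent.MWGX.H52

open Pool.Agent.Helper14_MV Pool.Agent.Helper2_MV Pool.Agent.MWGX
open Pool.Agent.MWK (pre)
open Pool.Agent.MWF (gaml)
open Pool.Agent.MWGN (nn)
open Pool.Agent.MWGQ (pw Gn E0 A0 P0)
open Pool.Agent.MWGR (X It Kaba F1 Dm Ec Es Ea Al0 Rh FE)

theorem pw_sing (k : ℕ) : pw k [0] = X k := by
  induction k with
  | zero => simp [pw]
  | succ k ih => rw [pw_succ, ih]; simp [List.replicate_succ]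

theorem crx (hF : FlxStmt) : CrxStmt := by
  intro n θ hn hIt d hd a i j i' j' P R hi hj hi' hj' h1 h2 haR
  have haR' := haR
  obtain ⟨T, R', rfl⟩ := List.append_of_mem haR
  have s0 := RR.sub (fun c => if c = 0 then [0] else if c = 1 then [a] else X j ++ T) hd
  have s1 := ((RR.refl (β := θ) (P ++ X i')).append s0).append (RR.refl R')
  rw [flat_dl, flat_dr] at s1
  simp only [if_true, pw_sing, one_ne_zero, if_false, OfNat.ofNat_ne_zero, OfNat.ofNat_ne_one] at s1
  have e1 : (P ++ X i') ++ (X (n + d) ++ ([a] ++ (X n ++ ((X j ++ T) ++ ([a] ++ R'))))) =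
      P ++ (X (i' + (n + d)) ++ a :: (X (n + j) ++ (T ++ a :: R'))) := by
    simp only [X, List.replicate_add, List.append_assoc, List.cons_append, List.nil_append]
  have e2 : (P ++ X i') ++ (X n ++ ([a] ++ (X (n + d) ++ ((X j ++ T) ++ ([a] ++ R'))))) =
      P ++ (X (i' + n) ++ a :: (X (n + d + j) ++ (T ++ a :: R'))) := by
    simp only [X, List.replicate_add, List.append_assoc, List.cons_append, List.nil_append]
  rw [e1, e2] at s1
  have m1 : i ≡ i' + (n + d) [MOD n] := by
    have h3 : i' + (n + d) ≡ i' + d [MOD n] := by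
      have e : i' + (n + d) = (i' + d) + n := by ring
      rw [e]
      exact Nat.add_modEq_right
    exact h1.trans h3.symm
  have m2 : j ≡ n + j [MOD n] := by
    rw [Nat.add_comm]
    exact Nat.add_modEq_right.symm
  have m3 : i' + n ≡ i' [MOD n] := Nat.add_modEq_right
  have m4 : n + d + j ≡ j' [MOD n] := by
    have h3 : i' + (d + j) ≡ i' + j' [MOD n] := by
      have e : i' + (d + j) = (i' + d) + j := by ring
      rw [e]
      exact ((h1.symm.add_right j).trans h2)
    have h4 : d + j ≡ j' [MOD n] := Nat.ModEq.add_left_cancel' i' h3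
    have h5 : n + d + j ≡ d + j [MOD n] := by
      have e : n + d + j = (d + j) + n := by ring
      rw [e]
      exact Nat.add_modEq_right
    exact h5.trans h4
  have t1 := hF n θ hIt a i j (i' + (n + d)) (n + j) P (T ++ a :: R') hi hj (by omega) (by omega)
    m1 m2 haR'
  have t2 := hF n θ hIt a (i' + n) (n + d + j) i' j' P (T ++ a :: R') (by omega) (by omega) hi' hj'
    m3 m4 haR'
  exact θ.trans t1 (θ.trans s1 t2)

end Pool.Agent.MWGX.H52
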